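import Pool.Agent.J6H99.NX.Stm

/-!
# First-passage percolation: the default path (module U)
-/

set_option autoImplicit false

open MeasureTheory ProbabilityTheory Filter Topology
open scoped ENNReal

namespace Pool.Agent.J6H81.NX

open Pool.Agent.J6H99.NX

variable {e : ℕ}

lemma dt_single (i : Fin (e + 2)) (a : ℝ) (y : E e) : dt (Pi.single i a) y = a * y i := by
  unfold dt
  rw [Finset.sum_eq_single i]
  · rw [Pi.single_eq_same]
  · intro j _ hj
    rw [Pi.single_eq_of_ne hj, zero_mul]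
  · intro h
    exact absurd (Finset.mem_univ i) h

/-- a functional which vanishes on `v` and is positive at `p` -/
lemma exists_sep {v p : E e} (hv : v ≠ 0) (hp : ∀ t : ℝ, p ≠ t • v) :
    ∃ lam : E e, dt lam v = 0 ∧ 0 < dt lam p := by
  by_contra hne
  push Not at hne
  have h0 : ∀ lam : E e, dt lam v = 0 → dt lam p = 0 := by
    intro lam h
    have h1 := hne lam h
    have h2 := hne (-lam) (by rw [neg_dt, h, neg_zero])
    rw [neg_dt] at h2
    linarith
  obtain ⟨j, hj⟩ : ∃ j, v j ≠ 0 := by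
    by_contra h
    push Not at h
    exact hv (funext h)
  refine hp (p j / v j) (funext fun i => ?_)
  have h1 := h0 (Pi.single i (v j) - Pi.single j (v i)) (by
    rw [sub_dt, dt_single, dt_single]; ring)
  rw [sub_dt, dt_single, dt_single] at h1
  rw [Pi.smul_apply, smul_eq_mul]
  field_simp
  linarith

/-- the first `n` of independent events all fail -/
lemma prob_none (F : Measure ℝ) [IsProbabilityMeasure F] {A : ℕ → Set (Sym2 (V e))}
    (hA : ∀ i j, i ≠ j → Disjoint (A i) (A j)) {W : ℕ → Set (Om e)}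
    (hW : ∀ j, MeasurableSet[MS (A j)] (W j)) {ε : ℝ≥0∞} (h : ∀ j, ε ≤ PM e F (W j)) (n : ℕ) :
    PM e F {ω | ∀ j, j < n → ω ∉ W j} ≤ (1 - ε) ^ n := by
  induction n with
  | zero => rw [pow_zero]; exact prob_le_one
  | succ n ih =>
    set B : Set (Sym2 (V e)) := {s | ∃ j, j < n ∧ s ∈ A j} with hB
    have hd : Disjoint B (A n) := by
      rw [Set.disjoint_left]
      rintro s ⟨j, hj, hs⟩ hs'
      exact Set.disjoint_left.1 (hA j n hj.ne) hs hs'
    have hN : MeasurableSet[MS B] {ω : Om e | ∀ j, j < n → ω ∉ W j} := by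
      have h1 : {ω : Om e | ∀ j, j < n → ω ∉ W j} = ⋂ j : ℕ, ⋂ _ : j < n, (W j)ᶜ := by
        ext ω
        simp only [Set.mem_ofPred_eq, Set.mem_iInter, Set.mem_compl_iff]
      rw [h1]
      refine @MeasurableSet.iInter _ _ (MS B) _ _ fun j => ?_
      refine @MeasurableSet.iInter _ _ (MS B) _ _ fun hj => ?_
      have hAB : A j ⊆ B := fun s hs => ⟨j, hj, hs⟩
      exact @MeasurableSet.compl _ _ (MS B) (MS_mono hAB _ (hW j))
    have h2 : {ω : Om e | ∀ j, j < n + 1 → ω ∉ W j} =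
        {ω : Om e | ∀ j, j < n → ω ∉ W j} ∩ (W n)ᶜ := by
      ext ω
      simp only [Set.mem_ofPred_eq, Set.mem_inter_iff, Set.mem_compl_iff]
      constructor
      · exact fun h => ⟨fun j hj => h j (by omega), h n (by omega)⟩
      · rintro ⟨h1, h2⟩ j hj
        rcases Nat.lt_succ_iff_lt_or_eq.1 hj with hj | rfl
        · exact h1 j hj
        · exact h2
    have h3 := (Indep_iff _ _ _).1 (indep_MS F hd) _ _ hN
      (@MeasurableSet.compl _ _ (MS (A n)) (hW n))
    rw [h2, h3, pow_succ]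
    refine mul_le_mul' ih ?_
    rw [prob_compl_eq_one_sub (MS_le _ _ (hW n))]
    exact tsub_le_tsub_left (h n) 1

/-- **MODULE U.** -/
theorem u : UT := by
  intro e q F _ _ ι _ D ε hε p hp
  obtain ⟨lam, hlv, hlp⟩ := exists_sep D.v_ne hp
  have he : (0 : ℝ) ≤ e := Nat.cast_nonneg e
  have hc0 := D.c0_pos
  have hb := q.hb
  have hcE := cE_pos e
  have hnl := nr_nonneg lam
  have hnv := nr_nonneg D.v
  have hp0 : p ≠ 0 := by
    have := hp 0
    rwa [zero_smul] at this
  have hnp := nr_pos hp0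
  set ρ : ℝ := Real.sqrt (1 - ε) with hρ
  have hρ0 : 0 ≤ ρ := Real.sqrt_nonneg _
  have hρ1 : ρ < 1 := by
    rw [hρ, Real.sqrt_lt' one_pos]
    linarith
  have h1ρ : 0 < 1 - ρ := by linarith
  set s0 : ℝ := (1 - ρ)⁻¹ with hs0
  set s1 : ℝ := ρ / (1 - ρ) ^ 2 with hs1
  have hs00 : 0 < s0 := inv_pos.2 h1ρ
  have hs10 : 0 ≤ s1 := by positivity
  set d := dt lam p with hd
  set G : ℝ := 2 * nr lam * (1 / D.c0 + ((e : ℝ) + 2)) + 1 with hG
  have hG0 : 0 < G := by positivity
  set C1 : ℝ := G / d with hC1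
  have hC10 : 0 < C1 := div_pos hG0 hlp
  set r : ℝ := 2 * ((e : ℝ) + 2) with hr
  have hr0 : 0 ≤ r := by positivity
  set A : ℝ := 2 * (q.b * (cE e * (r + 1))) with hA
  have hA0 : 0 < A := by positivity
  set B : ℝ := 2 * (q.b * (cE e * nr p)) with hB
  have hB0 : 0 < B := by positivity
  set C : ℝ := 1 + A * s0 + B * C1 * s1 + ((e : ℝ) + 2) + 1 / D.c0 + nr D.v + 2 * r + cE e with hC
  have hAs : 0 < A * s0 := by positivity
  have hBC : 0 ≤ B * C1 * s1 := by positivity
  have hC0 : 0 < C := by positivity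
  refine ⟨C, hC0, fun l w hlw => ?_⟩
  have hl : (0 : ℝ) ≤ l := Nat.cast_nonneg l
  have hw : (0 : ℝ) ≤ w := Nat.cast_nonneg w
  set m : ℝ := C1 * (w + 1) with hm
  have hm0 : 0 < m := by positivity
  set z : ℕ → V e := fun j => rnd (((j : ℝ) * m) • p) with hz
  have hzr : ∀ j, nr (vc (z j) - ((j : ℝ) * m) • p) ≤ (e : ℝ) + 2 := fun j => nr_rnd_sub _
  set S : Set (V e) := Strip D.v p l (C * (w + 1)) with hS
  set Tb : ℕ → Set (V e) := fun j => {x | x - z j ∈ Tube D l w} with hTb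
  set W : ℕ → Set (Om e) := fun j => Ev q (EIn (Tb j)) (z j) (rnd ((l : ℝ) • D.v) + z j) (l + w)
    with hW
  -- the tubes are near the line
  have htube : ∀ x ∈ Tube D (l : ℝ) w, nr (vc x - dt D.chi (vc x) • D.v) ≤ w / D.c0 :=
    fun x hx => D.near_line (y := vc x) (w := w) fun i => hx.2.2 i
  -- the tubes are disjoint
  have hlam : ∀ j, ∀ x ∈ Tb j, |dt lam (vc x) - (j : ℝ) * m * d| ≤
      nr lam * (w / D.c0 + ((e : ℝ) + 2)) := by
    intro j x hx
    have h1 := htube _ hx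
    have h2 : vc x - ((j : ℝ) * m) • p - dt D.chi (vc (x - z j)) • D.v =
        (vc (x - z j) - dt D.chi (vc (x - z j)) • D.v) + (vc (z j) - ((j : ℝ) * m) • p) := by
      rw [vc_sub]; abel
    have h3 : nr (vc x - ((j : ℝ) * m) • p - dt D.chi (vc (x - z j)) • D.v) ≤
        w / D.c0 + ((e : ℝ) + 2) := by
      rw [h2]
      exact (nr_add_le _ _).trans (add_le_add h1 (hzr j))
    have h4 := (abs_dt_le lam _).trans (mul_le_mul_of_nonneg_left h3 hnl)
    rw [dt_sub, dt_sub, dt_smul, dt_smul, hlv, mul_zero, sub_zero] at h4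
    exact h4
  have hwc : nr lam * (w / D.c0 + ((e : ℝ) + 2)) * 2 < m * d := by
    have h1 : m * d = G * (w + 1) := by
      rw [hm, hC1]; field_simp
    rw [h1, hG]
    have h2 : w / D.c0 + ((e : ℝ) + 2) ≤ (1 / D.c0 + ((e : ℝ) + 2)) * (w + 1) := by
      have h3 : (w : ℝ) / D.c0 = 1 / D.c0 * w := by ring
      have h4 : 0 ≤ 1 / D.c0 := by positivity
      rw [h3]
      nlinarith [mul_nonneg he hw]
    have h3 := mul_le_mul_of_nonneg_left h2 hnl
    nlinarith
  have hTd : ∀ i j, i < j → Disjoint (EIn (Tb i)) (EIn (Tb j)) := by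
    intro i j hij
    rw [Set.disjoint_left]
    intro s hs hs'
    induction s with
    | _ x y =>
      have h1 := abs_le.1 (hlam i x (hs x (Sym2.mem_mk_left _ _)))
      have h2 := abs_le.1 (hlam j x (hs' x (Sym2.mem_mk_left _ _)))
      have h3 : (i : ℝ) + 1 ≤ j := by exact_mod_cast hij
      have h4 : ((i : ℝ) + 1) * (m * d) ≤ j * (m * d) :=
        mul_le_mul_of_nonneg_right h3 (by positivity)
      nlinarith
  have hTd' : ∀ i j, i ≠ j → Disjoint (EIn (Tb i)) (EIn (Tb j)) := by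
    intro i j hij
    rcases lt_or_gt_of_ne hij with h | h
    · exact hTd i j h
    · exact (hTd j i h).symm
  -- the probabilities
  have hWp : ∀ j, ENNReal.ofReal ε ≤ PM e F (W j) := by
    intro j
    have h1 := prob_Ev q F (tr (z j)) (A := EIn (Tube D (l : ℝ) w)) (B := EIn (Tb j))
      (EIn_map (tr (z j)) fun v => by
        show v ∈ Tube D (l : ℝ) w ↔ v + z j - z j ∈ Tube D (l : ℝ) w
        rw [add_sub_cancel_right]) 0 (rnd ((l : ℝ) • D.v)) (l + w)
    rw [tr_apply, tr_apply, zero_add] at h1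
    show ENNReal.ofReal ε ≤ PM e F (Ev q (EIn (Tb j)) (z j) (rnd ((l : ℝ) • D.v) + z j) (l + w))
    rw [h1]
    exact hlw
  have hWm : ∀ j, MeasurableSet[MS (EIn (Tb j))] (W j) := fun j => Ev_meas_MS q subset_rfl _ _ _
  set N : ℕ → Set (Om e) := fun n => {ω | ∀ j, j < n → ω ∉ W j} with hN
  have hNp : ∀ n, PM e F (N n) ≤ (1 - ENNReal.ofReal ε) ^ n :=
    fun n => prob_none F hTd' hWm hWp n
  have hNm : ∀ n, MeasurableSet (N n) := by
    intro n
    have h1 : N n = ⋂ j : ℕ, ⋂ _ : j < n, (W j)ᶜ := by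
      ext ω
      simp only [hN, Set.mem_ofPred_eq, Set.mem_iInter, Set.mem_compl_iff]
    rw [h1]
    exact MeasurableSet.iInter fun j => MeasurableSet.iInter fun _ =>
      (MS_le _ _ (hWm j)).compl
  -- radii
  have hw1 : (1 : ℝ) ≤ (w : ℝ) + 1 := by linarith
  have hrad1 : 2 * r + cE e ≤ C * (w + 1) := by
    have h1 : 2 * r + cE e ≤ C := by
      rw [hC]
      have : 0 ≤ 1 / D.c0 := by positivity
      linarith
    calc 2 * r + cE e ≤ C := h1
      _ = C * 1 := (mul_one C).symm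
      _ ≤ C * (w + 1) := mul_le_mul_of_nonneg_left hw1 hC0.le
  have hrad2 : ((e : ℝ) + 2) + w / D.c0 + w * nr D.v ≤ C * (w + 1) := by
    have h1 : ((e : ℝ) + 2) + 1 / D.c0 + nr D.v ≤ C := by
      rw [hC]
      linarith
    have h2 : ((e : ℝ) + 2) + w / D.c0 + w * nr D.v ≤
        (((e : ℝ) + 2) + 1 / D.c0 + nr D.v) * (w + 1) := by
      have h3 : (w : ℝ) / D.c0 = 1 / D.c0 * w := by ring
      have h4 : 0 ≤ 1 / D.c0 := by positivity
      rw [h3]
      nlinarith [mul_nonneg he hw]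
    exact h2.trans (mul_le_mul_of_nonneg_right h1 (by linarith))
  -- the straight paths
  have hP1 : ∀ j : ℕ, ∃ P : (lat e).Walk 0 (z j), P.IsPath ∧
      (P.length : ℝ) ≤ cE e * ((j : ℝ) * m * nr p + r + 1) ∧ Uses P (EIn S) := by
    intro j
    have hjm : 0 ≤ (j : ℝ) * m := by positivity
    obtain ⟨P, h1, h2, h3⟩ := seg_path hr0 (a := 0) (b := ((j : ℝ) * m) • p) (x := (0 : V e))
      (y := z j) (by simpa using hr0) ((hzr j).trans (by rw [hr]; linarith))
    refine ⟨P, h1, ?_, edges_EIn fun x hx => ?_⟩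
    · rwa [sub_zero, nr_smul, abs_of_nonneg hjm] at h2
    · obtain ⟨t, ht0, ht1, hx⟩ := h3 x hx
      refine ⟨0, t * ((j : ℝ) * m), le_rfl, hl, by positivity, ?_⟩
      refine le_trans ?_ (hx.trans hrad1)
      rw [zero_smul, sub_zero, sub_zero, zero_add, smul_smul]
  have hP2 : ∀ j : ℕ, ∃ P : (lat e).Walk (rnd ((l : ℝ) • D.v) + z j) (rnd ((l : ℝ) • D.v)),
      P.IsPath ∧ (P.length : ℝ) ≤ cE e * ((j : ℝ) * m * nr p + r + 1) ∧ Uses P (EIn S) := by
    intro j
    have hjm : 0 ≤ (j : ℝ) * m := by positivity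
    obtain ⟨P, h1, h2, h3⟩ := seg_path hr0 (a := (l : ℝ) • D.v + ((j : ℝ) * m) • p)
      (b := (l : ℝ) • D.v) (x := rnd ((l : ℝ) • D.v) + z j) (y := rnd ((l : ℝ) • D.v)) (by
        rw [vc_add]
        have h4 : vc (rnd ((l : ℝ) • D.v)) + vc (z j) - ((l : ℝ) • D.v + ((j : ℝ) * m) • p) =
          (vc (rnd ((l : ℝ) • D.v)) - (l : ℝ) • D.v) + (vc (z j) - ((j : ℝ) * m) • p) := by abel
        rw [h4]
        refine (nr_add_le _ _).trans ?_
        have h5 := nr_rnd_sub ((l : ℝ) • D.v)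
        have h6 := hzr j
        rw [hr]
        linarith) ((nr_rnd_sub _).trans (by rw [hr]; linarith))
    refine ⟨P, h1, ?_, edges_EIn fun x hx => ?_⟩
    · rwa [sub_add_cancel_left, nr_neg, nr_smul, abs_of_nonneg hjm] at h2
    · obtain ⟨t, ht0, ht1, hx⟩ := h3 x hx
      refine ⟨l, (1 - t) * ((j : ℝ) * m), hl, le_rfl,
        mul_nonneg (by linarith) hjm, ?_⟩
      refine le_trans (le_of_eq ?_) (hx.trans hrad1)
      congr 1
      have h4 : t • ((l : ℝ) • D.v - ((l : ℝ) • D.v + ((j : ℝ) * m) • p)) =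
          -((t * ((j : ℝ) * m)) • p) := by
        rw [sub_add_cancel_left, smul_neg, smul_smul]
      have h5 : ((1 - t) * ((j : ℝ) * m)) • p =
          ((j : ℝ) * m) • p - (t * ((j : ℝ) * m)) • p := by
        rw [← sub_smul]; congr 1; ring
      rw [h4, h5]
      abel
  choose P1 hP1a hP1b hP1c using hP1
  choose P2 hP2a hP2b hP2c using hP2
  -- the cost after the first success
  have hcost : ∀ (ω : Om e) (j : ℕ), ω ∈ W j →
      ω ∈ Ev q (EIn S) 0 (rnd ((l : ℝ) • D.v)) (l + w + (cost q ω (P1 j) + cost q ω (P2 j))) := by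
    intro ω j hω
    have hjm : 0 ≤ (j : ℝ) * m := by positivity
    have h1 : ω ∈ Ev q (EIn S) 0 (z j) (cost q ω (P1 j)) := ⟨P1 j, hP1c j, le_rfl⟩
    have h2 : ω ∈ Ev q (EIn S) (z j) (rnd ((l : ℝ) • D.v) + z j) (l + w) := by
      refine Ev_mono_set q (EIn_mono fun x hx => ?_) _ _ _ hω
      have hx' : x - z j ∈ Tube D (l : ℝ) w := hx
      have h3 := htube _ hx'
      set h := dt D.chi (vc (x - z j)) with hh
      have h4 : -(w : ℝ) ≤ h := hx'.1
      have h5 : h ≤ l + w := hx'.2.1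
      set s : ℝ := max 0 (min l h) with hs
      have hs1 : 0 ≤ s := le_max_left _ _
      have hs2 : s ≤ l := max_le hl (min_le_left _ _)
      have hs3 : |h - s| ≤ w := by
        rw [abs_le]
        constructor
        · have : s ≤ h + w := max_le (by linarith) ((min_le_right _ _).trans (by linarith))
          linarith
        · have : h - w ≤ s := by
            refine le_trans ?_ (le_max_right _ _)
            exact le_min (by linarith) (by linarith)
          linarith
      refine ⟨s, (j : ℝ) * m, hs1, hs2, hjm, ?_⟩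
      have h6 : vc x - s • D.v - ((j : ℝ) * m) • p =
          (vc (z j) - ((j : ℝ) * m) • p) + ((vc (x - z j) - h • D.v) + (h - s) • D.v) := by
        rw [vc_sub, sub_smul]; abel
      rw [h6]
      refine (nr_add_le _ _).trans ?_
      have h7 := nr_add_le (vc (x - z j) - h • D.v) ((h - s) • D.v)
      rw [nr_smul] at h7
      have h8 := mul_le_mul_of_nonneg_right hs3 hnv
      have h9 := hzr j
      linarith
    have h3 : ω ∈ Ev q (EIn S) (rnd ((l : ℝ) • D.v) + z j) (rnd ((l : ℝ) • D.v))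
        (cost q ω (P2 j)) := ⟨P2 j, hP2c j, le_rfl⟩
    refine Ev_mono q _ _ _ (le_of_eq ?_) (Ev_trans q h1 (Ev_trans q h2 h3))
    ring
  have hε1 : ENNReal.ofReal ε ≤ 1 := hlw.trans prob_le_one
  have hε1' : ε ≤ 1 := by
    rwa [← ENNReal.ofReal_one, ENNReal.ofReal_le_ofReal_iff zero_le_one] at hε1
  have hρ2 : ρ ^ 2 = 1 - ε := Real.sq_sqrt (by linarith)
  have hNρ : ∀ n, PM e F (N n) ≤ ENNReal.ofReal ((ρ ^ n) ^ 2) := by
    intro n
    refine (hNp n).trans (le_of_eq ?_)
    rw [← pow_mul, mul_comm, pow_mul, hρ2, ENNReal.ofReal_pow (by linarith),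
      ENNReal.ofReal_sub _ hε.le, ENNReal.ofReal_one]
  -- some tube is crossed
  have hae : ∀ᵐ ω ∂(PM e F), ∃ j, ω ∈ W j := by
    have h0 : PM e F {ω | ¬ ∃ j, ω ∈ W j} = 0 := by
      have h1 : Tendsto (fun n : ℕ => ENNReal.ofReal ((ρ ^ n) ^ 2)) atTop (𝓝 0) := by
        have h2 : Tendsto (fun n : ℕ => (ρ ^ n) ^ 2) atTop (𝓝 (0 ^ 2)) :=
          (tendsto_pow_atTop_nhds_zero_of_lt_one hρ0 hρ1).pow 2
        have h3 := ENNReal.tendsto_ofReal h2
        simpa using h3
      refine le_antisymm (ge_of_tendsto' h1 fun n => ?_) zero_le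
      refine le_trans (measure_mono ?_) (hNρ n)
      intro ω hω j _ hj
      exact hω ⟨j, hj⟩
    exact h0
  -- the pointwise bound
  have hpt : ∀ᵐ ω ∂(PM e F), X q ω (EIn S) 0 {rnd ((l : ℝ) • D.v)} ≤
      ENNReal.ofReal (l + w) +
        ∑' n, (N n).indicator (fun ω => ENNReal.ofReal (cost q ω (P1 n)) +
          ENNReal.ofReal (cost q ω (P2 n))) ω := by
    filter_upwards [hae] with ω h
    classical
    have h1 := X_le_of_Ev q (Y := {rnd ((l : ℝ) • D.v)}) rfl
      (hcost ω (Nat.find h) (Nat.find_spec h))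
    refine h1.trans ?_
    have h2 := cost_nonneg q ω (P1 (Nat.find h))
    have h3 := cost_nonneg q ω (P2 (Nat.find h))
    rw [ENNReal.ofReal_add (by positivity) (by positivity)]
    refine add_le_add_right ?_ _
    refine le_trans ?_ (ENNReal.le_tsum (Nat.find h))
    have h4 : ω ∈ N (Nat.find h) := fun j hj => Nat.find_min h hj
    rw [Set.indicator_of_mem h4, ENNReal.ofReal_add h2 h3]
  have hmc : ∀ n, Measurable fun ω : Om e => ENNReal.ofReal (cost q ω (P1 n)) +
      ENNReal.ofReal (cost q ω (P2 n)) := fun n =>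
    (measurable_cost q _).ennreal_ofReal.add (measurable_cost q _).ennreal_ofReal
  -- the means
  have hone : ∀ n, ∫⁻ ω, (N n).indicator (fun ω => ENNReal.ofReal (cost q ω (P1 n)) +
          ENNReal.ofReal (cost q ω (P2 n))) ω ∂(PM e F) ≤
      ENNReal.ofReal (A * ρ ^ n + B * m * (n * ρ ^ n)) := by
    intro n
    have hρn : 0 ≤ ρ ^ n := pow_nonneg hρ0 n
    rw [lintegral_indicator (hNm n), lintegral_add_left (measurable_cost q _).ennreal_ofReal]
    have h1 := lint_on_le q F (hP1a n) (hNm n) hρn (hNρ n)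
    have h2 := lint_on_le q F (hP2a n) (hNm n) hρn (hNρ n)
    refine (add_le_add h1 h2).trans ?_
    rw [← ENNReal.ofReal_add (by positivity) (by positivity)]
    refine ENNReal.ofReal_le_ofReal ?_
    have h3 := mul_le_mul_of_nonneg_right (mul_le_mul_of_nonneg_left (hP1b n) hb.le) hρn
    have h4 := mul_le_mul_of_nonneg_right (mul_le_mul_of_nonneg_left (hP2b n) hb.le) hρn
    have h5 : A * ρ ^ n + B * m * (n * ρ ^ n) =
        q.b * (cE e * ((n : ℝ) * m * nr p + r + 1)) * ρ ^ n +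
        q.b * (cE e * ((n : ℝ) * m * nr p + r + 1)) * ρ ^ n := by
      rw [hA, hB]; ring
    rw [h5]
    linarith
  have hn1 : ‖ρ‖ < 1 := by rwa [Real.norm_eq_abs, abs_of_nonneg hρ0]
  have hsum0 : HasSum (fun n : ℕ => ρ ^ n) s0 := hasSum_geometric_of_lt_one hρ0 hρ1
  have hsum1 : HasSum (fun n : ℕ => (n : ℝ) * ρ ^ n) s1 :=
    hasSum_coe_mul_geometric_of_norm_lt_one hn1
  have hsum : HasSum (fun n : ℕ => A * ρ ^ n + B * m * (n * ρ ^ n)) (A * s0 + B * m * s1) :=
    (hsum0.mul_left A).add (hsum1.mul_left (B * m))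
  calc ∫⁻ ω, X q ω (EIn S) 0 {rnd ((l : ℝ) • D.v)} ∂(PM e F)
      ≤ ∫⁻ ω, (ENNReal.ofReal (l + w) +
        ∑' n, (N n).indicator (fun ω => ENNReal.ofReal (cost q ω (P1 n)) +
          ENNReal.ofReal (cost q ω (P2 n))) ω) ∂(PM e F) :=
        lintegral_mono_ae hpt
    _ = ENNReal.ofReal (l + w) + ∑' n, ∫⁻ ω, (N n).indicator (fun ω =>
          ENNReal.ofReal (cost q ω (P1 n)) + ENNReal.ofReal (cost q ω (P2 n))) ω ∂(PM e F) := by
        rw [lintegral_add_left measurable_const, lintegral_const, measure_univ, mul_one,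
          lintegral_tsum fun n => ((hmc n).indicator (hNm n)).aemeasurable]
    _ ≤ ENNReal.ofReal (l + w) + ∑' n : ℕ, ENNReal.ofReal (A * ρ ^ n + B * m * (n * ρ ^ n)) := by
        gcongr with n
        exact hone n
    _ = ENNReal.ofReal (l + w) + ENNReal.ofReal (A * s0 + B * m * s1) := by
        rw [← ENNReal.ofReal_tsum_of_nonneg (fun n => by positivity) hsum.summable, hsum.tsum_eq]
    _ = ENNReal.ofReal (l + w + (A * s0 + B * m * s1)) :=
        (ENNReal.ofReal_add (by positivity) (by positivity)).symm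
    _ ≤ ENNReal.ofReal (l + C * (w + 1)) := by
        refine ENNReal.ofReal_le_ofReal ?_
        have h1 : w + (A * s0 + B * m * s1) ≤ (1 + A * s0 + B * C1 * s1) * (w + 1) := by
          have h2 : B * m * s1 = B * C1 * s1 * (w + 1) := by rw [hm]; ring
          rw [h2]
          nlinarith
        have h2 : 1 + A * s0 + B * C1 * s1 ≤ C := by
          rw [hC]
          have : 0 ≤ 1 / D.c0 := by positivity
          linarith
        have h3 := mul_le_mul_of_nonneg_right h2 (show (0 : ℝ) ≤ (w : ℝ) + 1 by linarith)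
        linarith

end Pool.Agent.J6H81.NX
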